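import Pool.Agent.H14.AVS.S2

/-!
# AVS, module LCL: not more pairs (lattice, smooth point)
-/

set_option autoImplicit false

namespace Pool.AVS

open Polynomial Matrix Pool.AVR

namespace LCL

section bilinear

variable {K : Type} [Field K]

theorem bil_congr (B g : Matrix (Fin 3) (Fin 3) K) (u v : Fin 3 → K) :
    bil (gᵀ * B * g) u v = bil B (g *ᵥ u) (g *ᵥ v) := by
  unfold bil
  rw [← Matrix.mulVec_mulVec, ← Matrix.mulVec_mulVec, Matrix.dotProduct_mulVec,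
    Matrix.vecMul_transpose]

theorem bil_smul_right (B : Matrix (Fin 3) (Fin 3) K) (u v : Fin 3 → K) (t : K) :
    bil B u (t • v) = t * bil B u v := by
  unfold bil
  rw [Matrix.mulVec_smul, dotProduct_smul, smul_eq_mul]

theorem bil_smul_left (B : Matrix (Fin 3) (Fin 3) K) (u v : Fin 3 → K) (t : K) :
    bil B (t • u) v = t * bil B u v := by
  unfold bil
  rw [smul_dotProduct, smul_eq_mul]

theorem bil_symm (B : Matrix (Fin 3) (Fin 3) K) (hB : Bᵀ = B) (u v : Fin 3 → K) :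
    bil B u v = bil B v u := by
  unfold bil
  rw [Matrix.dotProduct_mulVec, dotProduct_comm, ← Matrix.mulVec_transpose, hB]

theorem AA_symm : (AA K)ᵀ = AA K := by
  ext i j; fin_cases i <;> fin_cases j <;> rfl

theorem AA_mul_AA : AA K * AA K = 1 := by
  ext i j; fin_cases i <;> fin_cases j <;> simp [AA, Matrix.mul_apply, Fin.sum_univ_three]

theorem AA_det : (AA K).det = -1 := by
  simp [AA, Matrix.det_fin_three]

theorem symm_congr (B g : Matrix (Fin 3) (Fin 3) K) (hB : Bᵀ = B) :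
    (gᵀ * B * g)ᵀ = gᵀ * B * g := by
  rw [Matrix.transpose_mul, Matrix.transpose_mul, Matrix.transpose_transpose, hB,
    Matrix.mul_assoc]

/-- inverse of an orthogonal matrix of determinant one -/
theorem inv_facts (g : Matrix (Fin 3) (Fin 3) K) (hd : g.det = 1) :
    g * g.adjugate = 1 ∧ g.adjugate * g = 1 ∧ g.adjugate.det = 1 := by
  refine ⟨?_, ?_, ?_⟩
  · rw [Matrix.mul_adjugate, hd, one_smul]
  · rw [Matrix.adjugate_mul, hd, one_smul]
  · rw [Matrix.det_adjugate, hd, one_pow]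

theorem inv_orth (g : Matrix (Fin 3) (Fin 3) K) (hd : g.det = 1) (hg : gᵀ * AA K * g = AA K) :
    (g.adjugate)ᵀ * AA K * g.adjugate = AA K := by
  obtain ⟨h1, h2, h3⟩ := inv_facts g hd
  calc (g.adjugate)ᵀ * AA K * g.adjugate
      = (g.adjugate)ᵀ * (gᵀ * AA K * g) * g.adjugate := by rw [hg]
    _ = (g * g.adjugate)ᵀ * AA K * (g * g.adjugate) := by
        rw [Matrix.transpose_mul]; simp only [Matrix.mul_assoc]
    _ = AA K := by rw [h1]; simp

end bilinear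

section choice

theorem exists_choice {ι α : Type} [DecidableEq ι] [Nonempty α] (good : ι → α → Prop)
    (R : ι → α → ι → α → Prop) (hsym : ∀ i a j b, R i a j b → R j b i a)
    (h : ∀ (T : Finset ι) (f : ι → α) (a : ι), (∀ j ∈ T, good j (f j)) → a ∉ T →
      ∃ c, good a c ∧ ∀ j ∈ T, R a c j (f j)) (T : Finset ι) :
    ∃ f : ι → α, (∀ i ∈ T, good i (f i)) ∧ ∀ i ∈ T, ∀ j ∈ T, i ≠ j → R i (f i) j (f j) := by
  induction T using Finset.induction_on with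
  | empty => exact ⟨fun _ => Classical.arbitrary α, by simp, by simp⟩
  | insert a T ha ih =>
    obtain ⟨f, hf1, hf2⟩ := ih
    obtain ⟨c, hc1, hc2⟩ := h T f a hf1 ha
    refine ⟨Function.update f a c, ?_, ?_⟩
    · intro i hi
      rcases Finset.mem_insert.1 hi with hia | hiT
      · rw [hia, Function.update_self]; exact hc1
      · have hne : i ≠ a := fun e => ha (e ▸ hiT)
        rw [Function.update_of_ne hne]; exact hf1 i hiT
    · intro i hi j hj hij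
      rcases Finset.mem_insert.1 hi with hia | hiT
      · rcases Finset.mem_insert.1 hj with hja | hjT
        · exact absurd (hia.trans hja.symm) hij
        · have hne' : j ≠ a := fun e => ha (e ▸ hjT)
          rw [hia, Function.update_self, Function.update_of_ne hne']
          exact hc2 j hjT
      · have hne : i ≠ a := fun e => ha (e ▸ hiT)
        rcases Finset.mem_insert.1 hj with hja | hjT
        · rw [hja, Function.update_self, Function.update_of_ne hne]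
          exact hsym _ _ _ _ (hc2 i hiT)
        · have hne' : j ≠ a := fun e => ha (e ▸ hjT)
          rw [Function.update_of_ne hne, Function.update_of_ne hne']
          exact hf2 i hiT j hjT hij

end choice

section local_

variable {L : Type} [Field L] {O : ValuationSubring L} {π : L}

theorem mm_mem (h : Loc L O π) {x : L} (hx : x / π ∈ O) : x ∈ O := by
  have := O.mul_mem _ _ hx h.pi_mem
  rwa [div_mul_cancel₀ _ h.pi_ne] at this

theorem mm_add {x y : L} (hx : x / π ∈ O) (hy : y / π ∈ O) : (x + y) / π ∈ O := by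
  rw [add_div]; exact O.add_mem _ _ hx hy

theorem mm_sub {x y : L} (hx : x / π ∈ O) (hy : y / π ∈ O) : (x - y) / π ∈ O := by
  rw [sub_div]; exact sub_mem hx hy

theorem mm_neg {x : L} (hx : x / π ∈ O) : (-x) / π ∈ O := by
  rw [neg_div]; exact neg_mem hx

theorem mm_mul {x y : L} (hx : x ∈ O) (hy : y / π ∈ O) : (x * y) / π ∈ O := by
  rw [mul_div_assoc]; exact O.mul_mem _ _ hx hy

theorem mm_mul' {x y : L} (hx : x / π ∈ O) (hy : y ∈ O) : (x * y) / π ∈ O := by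
  rw [mul_comm]; exact mm_mul hy hx

theorem mm_zero : (0 : L) / π ∈ O := by rw [zero_div]; exact O.zero_mem

theorem mm_sum {ι : Type} (s : Finset ι) (f : ι → L) (hf : ∀ i ∈ s, f i / π ∈ O) :
    (∑ i ∈ s, f i) / π ∈ O := by
  rw [Finset.sum_div]; exact sum_mem hf

theorem unit_of_not_mm (h : Loc L O π) {x : L} (hx : x ∈ O) (hx' : x / π ∉ O) :
    x ≠ 0 ∧ x⁻¹ ∈ O := by
  have h0 : x ≠ 0 := by rintro rfl; exact hx' mm_zero
  refine ⟨h0, ?_⟩
  by_contra hc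
  exact hx' ((h.unif x hx h0).1 hc)

theorem not_mm_of_unit (h : Loc L O π) {x : L} (h0 : x ≠ 0) (hx : x ∈ O) (hx' : x⁻¹ ∈ O) :
    x / π ∉ O := fun hc => (h.unif x hx h0).2 hc hx'

theorem one_not_mm (h : Loc L O π) : (1 : L) / π ∉ O :=
  not_mm_of_unit h one_ne_zero O.one_mem (by rw [inv_one]; exact O.one_mem)

/-- units times non-multiples of `π` -/
theorem not_mm_unit_mul {t x : L} (ht : t ≠ 0) (ht' : t⁻¹ ∈ O) (hx : x / π ∉ O) :
    (t * x) / π ∉ O := by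
  intro hc
  have := mm_mul ht' hc
  rw [← mul_assoc, inv_mul_cancel₀ ht, one_mul] at this
  exact hx this

theorem mulVec_mem {g : Matrix (Fin 3) (Fin 3) L} (hg : MI (O : Set L) g) {z : Fin 3 → L}
    (hz : ∀ i, z i ∈ O) (i : Fin 3) : (g *ᵥ z) i ∈ O := by
  have : (g *ᵥ z) i = ∑ j, g i j * z j := rfl
  rw [this]
  exact sum_mem fun j _ => O.mul_mem _ _ (hg i j) (hz j)

theorem mulVec_mm {g : Matrix (Fin 3) (Fin 3) L} (hg : MI (O : Set L) g) {z : Fin 3 → L}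
    (hz : ∀ i, z i / π ∈ O) (i : Fin 3) : (g *ᵥ z) i / π ∈ O := by
  have : (g *ᵥ z) i = ∑ j, g i j * z j := rfl
  rw [this]
  exact mm_sum _ _ fun j _ => mm_mul (hg i j) (hz j)

theorem dot_mem {u z : Fin 3 → L} (hu : ∀ i, u i ∈ O) (hz : ∀ i, z i ∈ O) : u ⬝ᵥ z ∈ O :=
  sum_mem fun j _ => O.mul_mem _ _ (hu j) (hz j)

theorem dot_mm {u z : Fin 3 → L} (hu : ∀ i, u i ∈ O) (hz : ∀ i, z i / π ∈ O) :
    (u ⬝ᵥ z) / π ∈ O :=
  mm_sum _ _ fun j _ => mm_mul (hu j) (hz j)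

theorem dot_mm' {u z : Fin 3 → L} (hu : ∀ i, u i / π ∈ O) (hz : ∀ i, z i ∈ O) :
    (u ⬝ᵥ z) / π ∈ O :=
  mm_sum _ _ fun j _ => mm_mul' (hu j) (hz j)

theorem mul_MI {g g' : Matrix (Fin 3) (Fin 3) L} (hg : MI (O : Set L) g)
    (hg' : MI (O : Set L) g') : MI (O : Set L) (g * g') := fun i j => by
  rw [Matrix.mul_apply]
  exact sum_mem fun k _ => O.mul_mem _ _ (hg i k) (hg' k j)

theorem tr_MI {g : Matrix (Fin 3) (Fin 3) L} (hg : MI (O : Set L) g) :
    MI (O : Set L) gᵀ := fun i j => hg j i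

theorem AA_MI : MI (O : Set L) (AA L) := fun i j => by
  fin_cases i <;> fin_cases j <;> simp [AA]

theorem adj_MI {g : Matrix (Fin 3) (Fin 3) L} (hg : MI (O : Set L) g) :
    MI (O : Set L) g.adjugate := by
  have hm : ∀ i j k l : Fin 3, g i j * g k l ∈ O := fun i j k l => O.mul_mem _ _ (hg i j) (hg k l)
  have hs : ∀ x y : L, x ∈ O → y ∈ O → x - y ∈ O := fun x y hx hy => sub_mem hx hy
  have hs' : ∀ x y : L, x ∈ O → y ∈ O → -x + y ∈ O := fun x y hx hy =>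
    O.add_mem _ _ (neg_mem hx) hy
  rw [Matrix.adjugate_fin_three]
  intro i j
  fin_cases i <;> fin_cases j <;>
    first
      | exact hs _ _ (hm _ _ _ _) (hm _ _ _ _)
      | exact hs' _ _ (hm _ _ _ _) (hm _ _ _ _)

/-- a nonzero vector can be scaled to be primitive -/
theorem exists_prim (h : Loc L O π) {z : Fin 3 → L} (hz : z ≠ 0) :
    ∃ v : L, v ≠ 0 ∧ (∀ i, (v • z) i ∈ O) ∧ ∃ i, (v • z) i / π ∉ O := by
  have key : ∃ i, z i ≠ 0 ∧ ∀ j, z j / z i ∈ O := by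
    have tot : ∀ x y : L, x ≠ 0 → y ≠ 0 → x / y ∈ O ∨ y / x ∈ O := by
      intro x y hx hy
      rcases O.mem_or_inv_mem (x / y) with h1 | h1
      · exact Or.inl h1
      · right; rwa [inv_div] at h1
    obtain ⟨i₀, hi₀⟩ : ∃ i, z i ≠ 0 := by
      by_contra hc
      push Not at hc
      exact hz (funext hc)
    have hfin : ∀ s : Finset (Fin 3), (∃ i ∈ s, z i ≠ 0) → ∃ i ∈ s, z i ≠ 0 ∧ ∀ j ∈ s, z j / z i ∈ O := by
      intro s
      induction s using Finset.induction_on with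
      | empty => rintro ⟨i, hi, _⟩; simp at hi
      | insert a s ha ih =>
        intro _
        by_cases hs : ∃ i ∈ s, z i ≠ 0
        · obtain ⟨i, hi, h0, hall⟩ := ih hs
          by_cases h1 : z a = 0
          · refine ⟨i, Finset.mem_insert_of_mem hi, h0, ?_⟩
            intro j hj
            rcases Finset.mem_insert.1 hj with rfl | hj
            · rw [h1, zero_div]; exact O.zero_mem
            · exact hall j hj
          · rcases tot (z a) (z i) h1 h0 with h2 | h2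
            · refine ⟨i, Finset.mem_insert_of_mem hi, h0, ?_⟩
              intro j hj
              rcases Finset.mem_insert.1 hj with rfl | hj
              · exact h2
              · exact hall j hj
            · refine ⟨a, Finset.mem_insert_self _ _, h1, ?_⟩
              intro j hj
              rcases Finset.mem_insert.1 hj with rfl | hj
              · rw [div_self h1]; exact O.one_mem
              · have := O.mul_mem _ _ (hall j hj) h2
                rwa [div_mul_div_cancel₀ h0] at this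
        · push Not at hs
          have h1 : z a ≠ 0 := by
            rename_i hex
            obtain ⟨i, hi, h0⟩ := hex
            rcases Finset.mem_insert.1 hi with rfl | hi
            · exact h0
            · exact absurd (hs i hi) h0
          refine ⟨a, Finset.mem_insert_self _ _, h1, ?_⟩
          intro j hj
          rcases Finset.mem_insert.1 hj with rfl | hj
          · rw [div_self h1]; exact O.one_mem
          · rw [hs j hj, zero_div]; exact O.zero_mem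
    obtain ⟨i, _, h0, hall⟩ := hfin Finset.univ ⟨i₀, Finset.mem_univ _, hi₀⟩
    exact ⟨i, h0, fun j => hall j (Finset.mem_univ _)⟩
  obtain ⟨i, h0, hall⟩ := key
  refine ⟨(z i)⁻¹, inv_ne_zero h0, ?_, i, ?_⟩
  · intro j
    rw [Pi.smul_apply, smul_eq_mul, mul_comm, ← div_eq_mul_inv]
    exact hall j
  · rw [Pi.smul_apply, smul_eq_mul, inv_mul_cancel₀ h0]
    exact one_not_mm h

/-- smoothness depends only on the residues, up to scaling -/
theorem smo_congr {B : Matrix (Fin 3) (Fin 3) L} (hB : MI (O : Set L) B)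
    {z z' : Fin 3 → L} {w w' t : L} (hs : Smo (O : Set L) π (AA L) B z w)
    (ht : UI (O : Set L) t) (hz' : ∀ i, z' i ∈ O) (hw' : w' ∈ O)
    (h1 : ∀ i, (z' i - t * z i) / π ∈ O) (h2 : (w' - t * w) / π ∈ O) :
    Smo (O : Set L) π (AA L) B z' w' := by
  obtain ⟨hz, hw, ⟨i₀, hi₀⟩, hA, hBB, hn⟩ := hs
  obtain ⟨ht0, htO, htO'⟩ := ht
  have hz : ∀ i, z i ∈ O := hz
  have hw : w ∈ O := hw
  have htz : ∀ i, (t • z) i ∈ O := fun i => O.mul_mem _ _ htO (hz i)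
  have hd : ∀ i, (z' - t • z) i / π ∈ O := h1
  -- quadratic forms
  have quad : ∀ G : Matrix (Fin 3) (Fin 3) L, MI (O : Set L) G →
      (bil G z' z' - t ^ 2 * bil G z z) / π ∈ O := by
    intro G hG
    have e : bil G z' z' - t ^ 2 * bil G z z =
        (z' - t • z) ⬝ᵥ (G *ᵥ z') + (t • z) ⬝ᵥ (G *ᵥ (z' - t • z)) := by
      unfold bil
      rw [Matrix.mulVec_sub, dotProduct_sub, sub_dotProduct, Matrix.mulVec_smul, dotProduct_smul,
        smul_dotProduct, smul_dotProduct]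
      simp only [smul_eq_mul]
      ring
    rw [e]
    exact mm_add (dot_mm' hd (mulVec_mem hG hz')) (dot_mm htz (mulVec_mm hG hd))
  refine ⟨hz', hw', ⟨i₀, ?_⟩, ?_, ?_, ?_⟩
  · intro hc
    have : (t * z i₀) / π ∈ O := by
      have := mm_sub hc (h1 i₀)
      rwa [show z' i₀ - (z' i₀ - t * z i₀) = t * z i₀ by ring] at this
    exact not_mm_unit_mul ht0 htO' hi₀ this
  · have h3 := quad _ AA_MI
    have h4 : (t ^ 2 * bil (AA L) z z) / π ∈ O := mm_mul (pow_mem htO 2) hA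
    have := mm_add h3 h4
    rwa [sub_add_cancel] at this
  · have h3 := quad B hB
    have h4 : (t ^ 2 * (w ^ 2 + bil B z z)) / π ∈ O := mm_mul (pow_mem htO 2) hBB
    have h5 : ((w' - t * w) * (w' + t * w)) / π ∈ O :=
      mm_mul' h2 (O.add_mem _ _ hw' (O.mul_mem _ _ htO hw))
    have := mm_add (mm_add h3 h4) h5
    rwa [show bil B z' z' - t ^ 2 * bil B z z + t ^ 2 * (w ^ 2 + bil B z z) +
      (w' - t * w) * (w' + t * w) = w' ^ 2 + bil B z' z' by ring] at this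
  · rintro ⟨hw'π, μ, hμ, hall⟩
    apply hn
    refine ⟨?_, μ, hμ, ?_⟩
    · have h3 : (t * w) / π ∈ O := by
        have := mm_sub hw'π h2
        rwa [show w' - (w' - t * w) = t * w by ring] at this
      have := mm_mul htO' h3
      rwa [← mul_assoc, inv_mul_cancel₀ ht0, one_mul] at this
    · intro i
      have h3 : ((B *ᵥ (z' - t • z)) i) / π ∈ O := mulVec_mm hB hd i
      have h4 : ((AA L *ᵥ (z' - t • z)) i) / π ∈ O := mulVec_mm AA_MI hd i
      have h5 := mm_sub (hall i) (mm_sub h3 (mm_mul hμ h4))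
      have h6 : (B *ᵥ z') i - μ * (AA L *ᵥ z') i -
          ((B *ᵥ (z' - t • z)) i - μ * (AA L *ᵥ (z' - t • z)) i) =
          t * ((B *ᵥ z) i - μ * (AA L *ᵥ z) i) := by
        rw [Matrix.mulVec_sub, Matrix.mulVec_sub, Matrix.mulVec_smul, Matrix.mulVec_smul]
        simp only [Pi.sub_apply, Pi.smul_apply, smul_eq_mul]
        ring
      rw [h6] at h5
      have := mm_mul htO' h5
      rwa [← mul_assoc, inv_mul_cancel₀ ht0, one_mul] at this

/-- equivalence depends only on the residues -/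
theorem eqv_congr {g g' : Matrix (Fin 3) (Fin 3) L} {z p z' p' : Fin 3 → L}
    {w v w' v' : L} (h1 : ∀ i, (p i - z i) / π ∈ O) (h2 : (v - w) / π ∈ O)
    (h1' : ∀ i, (p' i - z' i) / π ∈ O) (h2' : (v' - w') / π ∈ O)
    (he : Eqv (O : Set L) π g p v g' p' v') : Eqv (O : Set L) π g z w g' z' w' := by
  obtain ⟨κ, hκ, hg, t, ht, h3, h4⟩ := he
  refine ⟨κ, hκ, hg, t, ht, ?_, ?_⟩
  · intro i
    have h5 : (κ *ᵥ (p' - z')) i / π ∈ O := mulVec_mm hκ.1 h1' i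
    have h6 : (t * (p i - z i)) / π ∈ O := mm_mul ht.2.1 (h1 i)
    have := mm_add (mm_sub (h3 i) h5) h6
    rw [Matrix.mulVec_sub] at this
    simp only [Pi.sub_apply] at this
    have e : (κ *ᵥ p') i - t * p i - ((κ *ᵥ p') i - (κ *ᵥ z') i) + t * (p i - z i) =
        (κ *ᵥ z') i - t * z i := by ring
    rw [e] at this
    exact this
  · have h6 : (t * (v - w)) / π ∈ O := mm_mul ht.2.1 h2
    have := mm_add (mm_sub h4 h2') h6
    have e : v' - t * v - (v' - w') + t * (v - w) = w' - t * w := by ring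
    rw [e] at this
    exact this

/-- The key lemma: if the difference of two points has a nonintegral `x`, the lattices and the
reductions of the points agree. -/
theorem key (hDS2 : DS2Stmt) (hUNI : UNIStmt) (hDEQ : DEQStmt) (h : Loc L O π)
    {B g₁ g₂ : Matrix (Fin 3) (Fin 3) L} (hB : Bᵀ = B)
    (hg₁ : g₁ᵀ * AA L * g₁ = AA L) (hd₁ : g₁.det = 1) (hi₁ : MI (O : Set L) (g₁ᵀ * B * g₁))
    (hg₂ : g₂ᵀ * AA L * g₂ = AA L) (hd₂ : g₂.det = 1) (hi₂ : MI (O : Set L) (g₂ᵀ * B * g₂))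
    {p₁ p₂ : Fin 3 → L} {w₁ w₂ x : L}
    (hc₁ : Cov (g₁ᵀ * B * g₁) p₁ w₁) (hc₂ : Cov (g₂ᵀ * B * g₂) p₂ w₂)
    (hw₂ : w₂ ≠ 0)
    (hs₁ : Smo (O : Set L) π (AA L) (g₁ᵀ * B * g₁) p₁ w₁)
    (hs₂ : Smo (O : Set L) π (AA L) (g₂ᵀ * B * g₂) p₂ w₂)
    (hne : bil (AA L) (g₁ *ᵥ p₁) (g₂ *ᵥ p₂) ≠ 0)
    (hx : x * bil (AA L) (g₁ *ᵥ p₁) (g₂ *ᵥ p₂) = bil B (g₁ *ᵥ p₁) (g₂ *ᵥ p₂) - w₁ * w₂)
    (hxO : x ∉ O) : Eqv (O : Set L) π g₁ p₁ w₁ g₂ p₂ w₂ := by
  obtain ⟨hgi, hig, hdi⟩ := inv_facts g₁ hd₁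
  obtain ⟨hgi₂, hig₂, hdi₂⟩ := inv_facts g₂ hd₂
  have horth := inv_orth g₁ hd₁ hg₁
  set k : Matrix (Fin 3) (Fin 3) L := g₁.adjugate * g₂ with hk
  have hg₁k : g₁ * k = g₂ := by rw [hk, ← Matrix.mul_assoc, hgi, Matrix.one_mul]
  have hkd : k.det = 1 := by rw [hk, Matrix.det_mul, hdi, hd₂, one_mul]
  have hkA : kᵀ * AA L * k = AA L := by
    rw [hk, Matrix.transpose_mul]
    calc g₂ᵀ * (g₁.adjugate)ᵀ * AA L * (g₁.adjugate * g₂)
        = g₂ᵀ * ((g₁.adjugate)ᵀ * AA L * g₁.adjugate) * g₂ := by simp only [Matrix.mul_assoc]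
      _ = AA L := by rw [horth, hg₂]
  have hkB : kᵀ * (g₁ᵀ * B * g₁) * k = g₂ᵀ * B * g₂ := by
    have e1 : kᵀ * g₁ᵀ = g₂ᵀ := by rw [← Matrix.transpose_mul, hg₁k]
    calc kᵀ * (g₁ᵀ * B * g₁) * k = (kᵀ * g₁ᵀ) * B * (g₁ * k) := by
          simp only [Matrix.mul_assoc]
      _ = g₂ᵀ * B * g₂ := by rw [hg₁k, e1]
  obtain ⟨hkk, hkk', hkkd⟩ := inv_facts k hkd
  set q : Fin 3 → L := k *ᵥ p₂ with hq
  have hgq : g₁ *ᵥ q = g₂ *ᵥ p₂ := by rw [hq, Matrix.mulVec_mulVec, hg₁k]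
  have hp₂0 : p₂ ≠ 0 := hc₂.1
  have hp₂q : p₂ = k.adjugate *ᵥ q := by rw [hq, Matrix.mulVec_mulVec, hkk', Matrix.one_mulVec]
  have hq0 : q ≠ 0 := by
    intro hc
    rw [hc, Matrix.mulVec_zero] at hp₂q
    exact hp₂0 hp₂q
  obtain ⟨v, hv0, hvO, i₀, hi₀⟩ := exists_prim h hq0
  have hB₁ : (g₁ᵀ * B * g₁)ᵀ = g₁ᵀ * B * g₁ := symm_congr B g₁ hB
  -- the second point in the coordinates of the first lattice
  have hcq : Cov (g₁ᵀ * B * g₁) q w₂ := by
    have e1 := ((hDEQ L B g₁ hB hg₁).2.1 q w₂).2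
    have e2 := ((hDEQ L B g₂ hB hg₂).2.1 p₂ w₂).1 hc₂
    rw [hgq] at e1
    exact e1 e2
  have hcz : Cov (g₁ᵀ * B * g₁) (v • q) (v * w₂) :=
    ((hDEQ L (g₁ᵀ * B * g₁) 1 hB₁ (by simp)).2.2.2.2 q w₂ v hv0).2 hcq
  have hA1 : bil (AA L) p₁ (v • q) = v * bil (AA L) (g₁ *ᵥ p₁) (g₂ *ᵥ p₂) := by
    rw [bil_smul_right, ← hgq, ← bil_congr, hg₁]
  have hB1 : bil (g₁ᵀ * B * g₁) p₁ (v • q) = v * bil B (g₁ *ᵥ p₁) (g₂ *ᵥ p₂) := by
    rw [bil_smul_right, ← hgq, ← bil_congr]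
  have hz₁ : ∀ i, p₁ i ∈ O := hs₁.1
  obtain ⟨t, ht, ht1, ht2⟩ := hDS2 L O π h (g₁ᵀ * B * g₁) p₁ (v • q) w₁ (v * w₂) x hB₁ hi₁ hc₁
    hcz hz₁ hs₁.2.2.1 hvO ⟨i₀, hi₀⟩ (by rw [hA1]; exact mul_ne_zero hv0 hne)
    (by rw [hA1, hB1]; linear_combination v * hx) hxO
  have hw₁O : w₁ ∈ O := hs₁.2.1
  have hvw₂ : v * w₂ ∈ O := by
    have := O.add_mem _ _ (mm_mem h ht2) (O.mul_mem _ _ ht.2.1 hw₁O)
    rwa [sub_add_cancel] at this
  have hsz : Smo (O : Set L) π (AA L) (g₁ᵀ * B * g₁) (v • q) (v * w₂) :=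
    smo_congr hi₁ hs₁ ht hvO hvw₂ ht1 ht2
  have hkO : MI (O : Set L) k := by
    refine hUNI L O π h (g₁ᵀ * B * g₁) k (v • q) p₂ (v * w₂) w₂ v⁻¹ hB₁ hi₁ hkA hkd
      (by rw [hkB]; exact hi₂) hcz (mul_ne_zero hv0 hw₂) hsz (inv_ne_zero hv0) ?_ ?_
      (by rw [hkB]; exact hs₂)
    · rw [← hq, smul_smul, inv_mul_cancel₀ hv0, one_smul]
    · rw [← mul_assoc, inv_mul_cancel₀ hv0, one_mul]
  have hp₂O : ∀ i, p₂ i ∈ O := hs₂.1
  have hqO : ∀ i, q i ∈ O := mulVec_mem hkO hp₂O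
  have hqn : ∃ i, q i / π ∉ O := by
    by_contra hc
    push Not at hc
    obtain ⟨j, hj⟩ := hs₂.2.2.1
    apply hj
    have := mulVec_mm (adj_MI hkO) hc j
    rwa [← hp₂q] at this
  obtain ⟨j₀, hj₀⟩ := hqn
  have hvU : v ∈ O ∧ v⁻¹ ∈ O := by
    constructor
    · obtain ⟨ha, hb⟩ := unit_of_not_mm h (hqO j₀) hj₀
      have := O.mul_mem _ _ (hvO j₀) hb
      rwa [Pi.smul_apply, smul_eq_mul, mul_assoc, mul_inv_cancel₀ ha, mul_one] at this
    · obtain ⟨ha, hb⟩ := unit_of_not_mm h (hvO i₀) hi₀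
      have := O.mul_mem _ _ (hqO i₀) hb
      have ha' : q i₀ ≠ 0 := by
        intro hc
        apply ha
        rw [Pi.smul_apply, hc, smul_zero]
      rwa [Pi.smul_apply, smul_eq_mul, mul_inv, mul_comm v⁻¹, ← mul_assoc, mul_inv_cancel₀ ha',
        one_mul] at this
  refine ⟨k, ⟨hkO, ?_⟩, hg₁k.symm, v⁻¹ * t, ⟨mul_ne_zero (inv_ne_zero hv0) ht.1, ?_, ?_⟩, ?_, ?_⟩
  · rw [hkd]
    exact ⟨one_ne_zero, O.one_mem, by rw [inv_one]; exact O.one_mem⟩
  · exact O.mul_mem _ _ hvU.2 ht.2.1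
  · rw [mul_inv, inv_inv]; exact O.mul_mem _ _ hvU.1 ht.2.2
  · intro i
    have := mm_mul hvU.2 (ht1 i)
    rw [Pi.smul_apply, smul_eq_mul] at this
    have e : v⁻¹ * (v * q i - t * p₁ i) = q i - v⁻¹ * t * p₁ i := by
      field_simp
    rw [e] at this
    exact this
  · have := mm_mul hvU.2 ht2
    have e : v⁻¹ * (v * w₂ - t * w₁) = w₂ - v⁻¹ * t * w₁ := by
      field_simp
    rw [e] at this
    exact this

theorem smo_base {G B κ : Matrix (Fin 3) (Fin 3) L} (hκ : GI (O : Set L) κ)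
    {z z' : Fin 3 → L} {w : L} (hz : κ *ᵥ z' = z) (hs : Smo (O : Set L) π G B z w)
    (hz' : ∀ i, z' i ∈ O) :
    Smo (O : Set L) π (κᵀ * G * κ) (κᵀ * B * κ) z' w := by
  obtain ⟨hzO, hw, ⟨i₀, hi₀⟩, hA, hBB, hn⟩ := hs
  obtain ⟨hκO, hdet0, hdetO, hdetO'⟩ := hκ
  refine ⟨hz', hw, ?_, ?_, ?_, ?_⟩
  · by_contra hc
    push Not at hc
    apply hi₀
    rw [← hz]
    exact mulVec_mm hκO hc i₀
  · rw [bil_congr, hz]; exact hA
  · rw [bil_congr, hz]; exact hBB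
  · rintro ⟨hwπ, μ, hμ, hall⟩
    refine hn ⟨hwπ, μ, hμ, ?_⟩
    -- invert the transpose of `κ`
    have hinv : MI (O : Set L) (κ.det⁻¹ • (κᵀ).adjugate) := fun i j => by
      rw [Matrix.smul_apply, smul_eq_mul]
      exact O.mul_mem _ _ hdetO' (adj_MI (tr_MI hκO) i j)
    have hmul : (κ.det⁻¹ • (κᵀ).adjugate) * κᵀ = 1 := by
      rw [Matrix.smul_mul, Matrix.adjugate_mul, Matrix.det_transpose, smul_smul,
        inv_mul_cancel₀ hdet0, one_smul]
    intro i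
    have h1 := mulVec_mm hinv (z := (κᵀ * B * κ) *ᵥ z' - μ • ((κᵀ * G * κ) *ᵥ z')) hall i
    have h2 : (κ.det⁻¹ • (κᵀ).adjugate) *ᵥ ((κᵀ * B * κ) *ᵥ z' - μ • ((κᵀ * G * κ) *ᵥ z')) =
        B *ᵥ z - μ • (G *ᵥ z) := by
      have key : ∀ M : Matrix (Fin 3) (Fin 3) L,
          (κ.det⁻¹ • (κᵀ).adjugate) *ᵥ ((κᵀ * M * κ) *ᵥ z') = M *ᵥ z := by
        intro M
        have e : (κᵀ * M * κ) *ᵥ z' = κᵀ *ᵥ (M *ᵥ z) := by
          rw [Matrix.mul_assoc, ← Matrix.mulVec_mulVec, ← Matrix.mulVec_mulVec, hz]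
        rw [e, Matrix.mulVec_mulVec, hmul, Matrix.one_mulVec]
      rw [Matrix.mulVec_sub, Matrix.mulVec_smul, key, key]
    rw [h2] at h1
    exact h1

/-- normalisation of the lattice -/
theorem normalise (hNFO : NFOStmt) (h : Loc L O π) {B g : Matrix (Fin 3) (Fin 3) L}
    {z : Fin 3 → L} {w : L} (hk : KP (O : Set L) π B g z w) :
    ∃ (κ : Matrix (Fin 3) (Fin 3) L) (z' : Fin 3 → L), GI (O : Set L) κ ∧
      (g * κ)ᵀ * AA L * (g * κ) = AA L ∧ (g * κ).det = 1 ∧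
      MI (O : Set L) ((g * κ)ᵀ * B * (g * κ)) ∧ κ *ᵥ z' = z ∧
      Smo (O : Set L) π (AA L) ((g * κ)ᵀ * B * (g * κ)) z' w := by
  obtain ⟨hd, ⟨hGI, hGd⟩, hBI, hs⟩ := hk
  have hGdet : (gᵀ * AA L * g).det = -(g.det) ^ 2 := by
    rw [Matrix.det_mul, Matrix.det_mul, Matrix.det_transpose, AA_det]; ring
  -- the determinant of `g` is a unit
  have hgU : UI (O : Set L) g.det := by
    obtain ⟨h0, h1, h2⟩ := hGd
    rw [hGdet] at h1 h2
    have sq : ∀ x : L, x ^ 2 ∈ O → x ∈ O := by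
      intro x hx
      rcases O.mem_or_inv_mem x with h3 | h3
      · exact h3
      · by_cases hx0 : x = 0
        · rw [hx0]; exact O.zero_mem
        · have := O.mul_mem _ _ hx h3
          rwa [pow_two, mul_assoc, mul_inv_cancel₀ hx0, mul_one] at this
    refine ⟨hd, ?_, ?_⟩
    · apply sq
      have := neg_mem (show -(g.det) ^ 2 ∈ O from h1)
      rwa [neg_neg] at this
    · apply sq
      have := neg_mem (show (-(g.det) ^ 2)⁻¹ ∈ O from h2)
      rwa [inv_neg, neg_neg, ← inv_pow] at this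
  obtain ⟨κ, hκ, hκA⟩ := hNFO L O π h (gᵀ * AA L * g) g.det (symm_congr _ _ AA_symm) hGI hgU hGdet
  -- sign
  have hdet : (g * κ).det = 1 ∨ (g * κ).det = -1 := by
    have h1 : (g * κ).det ^ 2 = 1 := by
      have h2 := congrArg Matrix.det hκA
      rw [Matrix.det_mul, Matrix.det_mul, Matrix.det_transpose, hGdet, AA_det] at h2
      rw [Matrix.det_mul]
      linear_combination -h2
    have h3 : ((g * κ).det - 1) * ((g * κ).det + 1) = 0 := by linear_combination h1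
    rcases mul_eq_zero.1 h3 with h4 | h4
    · left; linear_combination h4
    · right; linear_combination h4
  have main : ∀ κ' : Matrix (Fin 3) (Fin 3) L, GI (O : Set L) κ' →
      κ'ᵀ * (gᵀ * AA L * g) * κ' = AA L → (g * κ').det = 1 →
      ∃ (κ : Matrix (Fin 3) (Fin 3) L) (z' : Fin 3 → L), GI (O : Set L) κ ∧
      (g * κ)ᵀ * AA L * (g * κ) = AA L ∧ (g * κ).det = 1 ∧
      MI (O : Set L) ((g * κ)ᵀ * B * (g * κ)) ∧ κ *ᵥ z' = z ∧
      Smo (O : Set L) π (AA L) ((g * κ)ᵀ * B * (g * κ)) z' w := by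
    intro κ' hκ' hA' hd'
    have hinv : MI (O : Set L) (κ'.det⁻¹ • κ'.adjugate) := fun i j => by
      rw [Matrix.smul_apply, smul_eq_mul]
      exact O.mul_mem _ _ hκ'.2.2.2 (adj_MI hκ'.1 i j)
    have hmul : κ' * (κ'.det⁻¹ • κ'.adjugate) = 1 := by
      rw [Matrix.mul_smul, Matrix.mul_adjugate, smul_smul, inv_mul_cancel₀ hκ'.2.1, one_smul]
    have tr : ∀ G : Matrix (Fin 3) (Fin 3) L,
        (g * κ')ᵀ * G * (g * κ') = κ'ᵀ * (gᵀ * G * g) * κ' := by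
      intro G
      rw [Matrix.transpose_mul]; simp only [Matrix.mul_assoc]
    have hz : κ' *ᵥ ((κ'.det⁻¹ • κ'.adjugate) *ᵥ z) = z := by
      rw [Matrix.mulVec_mulVec, hmul, Matrix.one_mulVec]
    have hz' : ∀ i, ((κ'.det⁻¹ • κ'.adjugate) *ᵥ z) i ∈ O := mulVec_mem hinv hs.1
    refine ⟨κ', (κ'.det⁻¹ • κ'.adjugate) *ᵥ z, hκ', by rw [tr, hA'], hd', ?_, hz, ?_⟩
    · rw [tr]
      exact mul_MI (mul_MI (tr_MI hκ'.1) hBI) hκ'.1
    · have := smo_base hκ' hz hs hz'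
      rw [hA', ← tr] at this
      exact this
  rcases hdet with h1 | h1
  · exact main κ hκ hκA h1
  · refine main (-κ) ⟨fun i j => ?_, ?_⟩ ?_ ?_
    · exact neg_mem (hκ.1 i j)
    · have hdn : (-κ).det = -κ.det := by
        rw [Matrix.det_neg, Fintype.card_fin]; ring
      rw [hdn]
      refine ⟨neg_ne_zero.2 hκ.2.1, neg_mem hκ.2.2.1, ?_⟩
      rw [inv_neg]
      exact neg_mem hκ.2.2.2
    · rw [Matrix.transpose_neg, Matrix.neg_mul, Matrix.neg_mul, Matrix.mul_neg, neg_neg, hκA]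
    · rw [Matrix.mul_neg, Matrix.det_neg, h1]; norm_num

/-- equivalence after a change of basis of the lattices -/
theorem eqv_base {g g' κ κ' : Matrix (Fin 3) (Fin 3) L} {z p z' p' : Fin 3 → L} {w w' : L}
    (hκ : GI (O : Set L) κ) (hκ' : GI (O : Set L) κ') (hz : κ *ᵥ p = z) (hz' : κ' *ᵥ p' = z')
    (he : Eqv (O : Set L) π (g * κ) p w (g' * κ') p' w') :
    Eqv (O : Set L) π g z w g' z' w' := by
  obtain ⟨k, hk, hg, t, ht, h3, h4⟩ := he
  have hinv : MI (O : Set L) (κ'.det⁻¹ • κ'.adjugate) := fun i j => by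
    rw [Matrix.smul_apply, smul_eq_mul]
    exact O.mul_mem _ _ hκ'.2.2.2 (adj_MI hκ'.1 i j)
  have hmul : κ' * (κ'.det⁻¹ • κ'.adjugate) = 1 := by
    rw [Matrix.mul_smul, Matrix.mul_adjugate, smul_smul, inv_mul_cancel₀ hκ'.2.1, one_smul]
  have hmul' : (κ'.det⁻¹ • κ'.adjugate) * κ' = 1 := by
    rw [Matrix.smul_mul, Matrix.adjugate_mul, smul_smul, inv_mul_cancel₀ hκ'.2.1, one_smul]
  have hdetinv : (κ'.det⁻¹ • κ'.adjugate).det = κ'.det⁻¹ := by
    have := congrArg Matrix.det hmul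
    rw [Matrix.det_mul, Matrix.det_one] at this
    exact eq_inv_of_mul_eq_one_right this
  refine ⟨κ * k * (κ'.det⁻¹ • κ'.adjugate), ⟨mul_MI (mul_MI hκ.1 hk.1) hinv, ?_⟩, ?_, t, ht, ?_, h4⟩
  · rw [Matrix.det_mul, Matrix.det_mul, hdetinv]
    refine ⟨mul_ne_zero (mul_ne_zero hκ.2.1 hk.2.1) (inv_ne_zero hκ'.2.1), ?_, ?_⟩
    · exact O.mul_mem _ _ (O.mul_mem _ _ hκ.2.2.1 hk.2.2.1) hκ'.2.2.2
    · rw [mul_inv, mul_inv, inv_inv]
      exact O.mul_mem _ _ (O.mul_mem _ _ hκ.2.2.2 hk.2.2.2) hκ'.2.2.1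
  · calc g' = (g' * κ') * (κ'.det⁻¹ • κ'.adjugate) := by
          rw [Matrix.mul_assoc, hmul, Matrix.mul_one]
      _ = g * (κ * k * (κ'.det⁻¹ • κ'.adjugate)) := by rw [hg]; simp only [Matrix.mul_assoc]
  · intro i
    have h5 : ((κ * k * (κ'.det⁻¹ • κ'.adjugate)) *ᵥ z') = κ *ᵥ (k *ᵥ p') := by
      rw [← hz', Matrix.mulVec_mulVec, Matrix.mul_assoc, hmul', Matrix.mul_one,
        Matrix.mulVec_mulVec]
    have h6 := mulVec_mm hκ.1 (z := k *ᵥ p' - t • p) h3 i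
    rw [Matrix.mulVec_sub, Matrix.mulVec_smul, hz] at h6
    rw [h5]
    exact h6

/-- finiteness of the directions orthogonal to a given isotropic vector -/
theorem finA (hISV : ISVStmt) (h2 : (2 : L) ≠ 0) {g : Matrix (Fin 3) (Fin 3) L}
    (hg : gᵀ * AA L * g = AA L) (hd : g.det = 1) {u : Fin 3 → L} (hu : u ≠ 0)
    (hu' : bil (AA L) u u = 0) : {s : L | bil (AA L) u (g *ᵥ zz 1 s) = 0}.Finite := by
  obtain ⟨h1, h2', h3⟩ := inv_facts g hd
  have horth := inv_orth g hd hg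
  have hgu : g *ᵥ (g.adjugate *ᵥ u) = u := by rw [Matrix.mulVec_mulVec, h1, Matrix.one_mulVec]
  have h0 : g.adjugate *ᵥ u ≠ 0 := by
    intro hc
    rw [hc, Matrix.mulVec_zero] at hgu
    exact hu hgu.symm
  have hiso : bil (AA L) (g.adjugate *ᵥ u) (g.adjugate *ᵥ u) = 0 := by
    rw [← bil_congr, horth, hu']
  obtain ⟨t, r, s₀, ht, hrs, he⟩ := (hISV L h2).2.2.1 _ h0 hiso
  have hval : ∀ s : L, bil (AA L) u (g *ᵥ zz 1 s) = t * (-(r * s - 1 * s₀) ^ 2 / 2) := by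
    intro s
    have : bil (AA L) u (g *ᵥ zz 1 s) = bil (AA L) (g *ᵥ (g.adjugate *ᵥ u)) (g *ᵥ zz 1 s) := by
      rw [hgu]
    rw [this, ← bil_congr, hg, he, bil_smul_left, (hISV L h2).2.1]
  refine Set.Finite.subset (Set.finite_singleton (s₀ / r)) ?_
  intro s hs
  have hs' : bil (AA L) u (g *ᵥ zz 1 s) = 0 := hs
  rw [hval] at hs'
  have hs2 : (r * s - 1 * s₀) ^ 2 = 0 := by
    rcases mul_eq_zero.1 hs' with h4 | h4
    · exact absurd h4 ht
    · rcases div_eq_zero_iff.1 h4 with h5 | h5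
      · exact neg_eq_zero.1 h5
      · exact absurd h5 h2
  have hs3 : r * s - 1 * s₀ = 0 := pow_eq_zero_iff (two_ne_zero) |>.1 hs2
  have hr : r ≠ 0 := by
    rintro rfl
    have : s₀ = 0 := by linear_combination -hs3
    rcases hrs with h5 | h5
    · exact h5 rfl
    · exact h5 this
  have : s = s₀ / r := by
    rw [eq_div_iff hr]; linear_combination hs3
  exact this

/-- finiteness of the directions giving a prescribed `x` -/
theorem finQ (hCON : CONStmt) (hDBL : DBLStmt) (h2 : (2 : L) ≠ 0)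
    {B g : Matrix (Fin 3) (Fin 3) L} (hB : Bᵀ = B) (hdB : dB B ≠ 0)
    (hg : gᵀ * AA L * g = AA L) (hd : g.det = 1) (l : Fin 3 → L) {w₀ : L} (hw : w₀ ≠ 0) :
    {s : L | (l ⬝ᵥ (g *ᵥ zz 1 s)) ^ 2 + w₀ ^ 2 * bil B (g *ᵥ zz 1 s) (g *ᵥ zz 1 s) = 0}.Finite := by
  obtain ⟨h1, h2', h3⟩ := inv_facts g hd
  set Q₀ : Matrix (Fin 3) (Fin 3) L := Matrix.of (fun i j => l i * l j) + w₀ ^ 2 • B with hQ₀
  have hQs : Q₀ᵀ = Q₀ := by
    rw [hQ₀, Matrix.transpose_add, Matrix.transpose_smul, hB]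
    congr 1
    ext i j
    simp [mul_comm]
  have hbil : ∀ z : Fin 3 → L, bil Q₀ z z = (l ⬝ᵥ z) ^ 2 + w₀ ^ 2 * bil B z z := by
    intro z
    rw [hQ₀]
    simp only [bil, Matrix.mulVec, dotProduct, Fin.sum_univ_three, Matrix.add_apply,
      Matrix.of_apply, Matrix.smul_apply, smul_eq_mul]
    ring
  have hQ : (gᵀ * Q₀ * g)ᵀ = gᵀ * Q₀ * g := symm_congr _ _ hQs
  have hnot : ¬ ∃ μ : L, gᵀ * Q₀ * g = μ • AA L := by
    rintro ⟨μ, hμ⟩
    have horth := inv_orth g hd hg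
    have e1 : Q₀ = μ • AA L := by
      calc Q₀ = (g * g.adjugate)ᵀ * Q₀ * (g * g.adjugate) := by rw [h1]; simp
        _ = (g.adjugate)ᵀ * (gᵀ * Q₀ * g) * g.adjugate := by
            rw [Matrix.transpose_mul]; simp only [Matrix.mul_assoc]
        _ = μ • AA L := by
            rw [hμ, Matrix.mul_smul, Matrix.smul_mul, horth]
    apply hdB
    refine hDBL L h2 B l (-(w₀ ^ 2)⁻¹) ((w₀ ^ 2)⁻¹ * μ) hB ?_
    have hw2 : w₀ ^ 2 ≠ 0 := pow_ne_zero 2 hw
    ext i j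
    have e2 := congrFun (congrFun e1 i) j
    rw [hQ₀] at e2
    simp only [Matrix.add_apply, Matrix.of_apply, Matrix.smul_apply, smul_eq_mul] at e2 ⊢
    field_simp
    linear_combination e2
  refine Set.Finite.subset (hCON L h2 _ hQ hnot) ?_
  intro s hs
  have hs' : (l ⬝ᵥ (g *ᵥ zz 1 s)) ^ 2 + w₀ ^ 2 * bil B (g *ᵥ zz 1 s) (g *ᵥ zz 1 s) = 0 := hs
  show bil (gᵀ * Q₀ * g) (zz 1 s) (zz 1 s) = 0
  rw [bil_congr, hbil]
  exact hs'

end local_

end LCL

open LCL in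
theorem lcl_thm (hEBU : EBUStmt) (hNFO : NFOStmt) (hHSM : HSMStmt) (hDS2 : DS2Stmt)
    (hUNI : UNIStmt) (hSLP : SLPStmt) (hDIX : DIXStmt) (hDEQ : DEQStmt) (hISV : ISVStmt)
    (hCON : CONStmt) (hDBL : DBLStmt) : LCLStmt := by
  classical
  intro L _ O π h N a b c hdisc B hB ha hb hc M g z w hKP hneq
  rcases Nat.eq_zero_or_pos M with hM | hM
  · subst hM; simp
  have h2 : (2 : L) ≠ 0 := h.two.1
  have hdB : dB B ≠ 0 := by
    intro hd
    apply hdisc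
    have e : ((disc a b c : O) : L) = dB B := by
      unfold dB disc
      rw [ha, hb, hc]
      have h3 : ∀ x : O, O.subtype x = (x : L) := fun _ => rfl
      rw [← h3, ← h3 a, ← h3 b, ← h3 c]
      simp only [map_sub, map_add, map_mul, map_pow, map_ofNat]
    have : disc a b c = 0 := by
      apply Subtype.ext
      rw [e, hd]
      rfl
    rw [this]
    exact Submodule.zero_mem _
  choose κ p hκ hgA hgd hgB hκp hsm using fun i => normalise hNFO h (hKP i)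
  have hsym : ∀ i, ((g i * κ i)ᵀ * B * (g i * κ i))ᵀ = (g i * κ i)ᵀ * B * (g i * κ i) :=
    fun i => symm_congr _ _ hB
  have hpO : ∀ i j, p i j ∈ O := fun i => (hsm i).1
  have hwO : ∀ i, w i ∈ O := fun i => (hsm i).2.1
  have h1U : UI (O : Set L) (1 : L) := ⟨one_ne_zero, O.one_mem, by rw [inv_one]; exact O.one_mem⟩
  -- passage to the global coordinates
  have hglob : ∀ i (q : Fin 3 → L) (v : L), Cov ((g i * κ i)ᵀ * B * (g i * κ i)) q v →
      Cov B ((g i * κ i) *ᵥ q) v := fun i q v hc =>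
    ((hDEQ L B (g i * κ i) hB (hgA i)).2.1 q v).1 hc
  -- lifted points are smooth
  have hsmo : ∀ i (q : Fin 3 → L) (v : L), (∀ j, q j ∈ O) → (∀ j, (q j - p i j) / π ∈ O) →
      (v - w i) / π ∈ O → Smo (O : Set L) π (AA L) ((g i * κ i)ᵀ * B * (g i * κ i)) q v := by
    intro i q v hq h3 h4
    have hv : v ∈ O := by
      have := O.add_mem _ _ (mm_mem h h4) (hwO i)
      rwa [sub_add_cancel] at this
    exact smo_congr (hgB i) (hsm i) h1U hq hv (fun j => by rw [one_mul]; exact h3 j)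
      (by rw [one_mul]; exact h4)
  -- the contradiction from the key lemma
  have hcontra : ∀ i j, i ≠ j → ∀ (q q' : Fin 3 → L) (v v' x : L),
      Cov ((g i * κ i)ᵀ * B * (g i * κ i)) q v → (∀ k, q k ∈ O) →
      (∀ k, (q k - p i k) / π ∈ O) → (v - w i) / π ∈ O →
      Cov ((g j * κ j)ᵀ * B * (g j * κ j)) q' v' → v' ≠ 0 → (∀ k, q' k ∈ O) →
      (∀ k, (q' k - p j k) / π ∈ O) → (v' - w j) / π ∈ O →
      bil (AA L) ((g i * κ i) *ᵥ q) ((g j * κ j) *ᵥ q') ≠ 0 →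
      x * bil (AA L) ((g i * κ i) *ᵥ q) ((g j * κ j) *ᵥ q') =
        bil B ((g i * κ i) *ᵥ q) ((g j * κ j) *ᵥ q') - v * v' → x ∈ O := by
    intro i j hij q q' v v' x hc1 hq1 hq2 hv1 hc2 hv0 hq1' hq2' hv1' hne hx
    by_contra hxO
    have he := key hDS2 hUNI hDEQ h hB (hgA i) (hgd i) (hgB i) (hgA j) (hgd j) (hgB j) hc1 hc2 hv0
      (hsmo i q v hq1 hq2 hv1) (hsmo j q' v' hq1' hq2' hv1') hne hx hxO
    have he' := eqv_congr hq2 hv1 hq2' hv1' he
    exact hneq i j hij (eqv_base (hκ i) (hκ j) (hκp i) (hκp j) he')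
  -- the base point
  set i₀ : Fin M := ⟨0, hM⟩ with hi₀
  obtain ⟨s₀, t₀, v₀, _, ht₀, hv₀, hcov₀, hint₀, hcg₀, hcgw₀⟩ := hHSM L O π h
    ((g i₀ * κ i₀)ᵀ * B * (g i₀ * κ i₀)) (p i₀) (w i₀) (hsym i₀) (hgB i₀) (hsm i₀) ∅
    Set.finite_empty
  set q₀ : Fin 3 → L := t₀ • zz 1 s₀ with hq₀
  set P₀ : Fin 3 → L := (g i₀ * κ i₀) *ᵥ q₀ with hP₀
  have hCP₀ : Cov B P₀ v₀ := hglob i₀ q₀ v₀ hcov₀
  let X : Fin M → (Fin 3 → L) × L → L := fun i c =>
    (bil B P₀ ((g i * κ i) *ᵥ c.1) - v₀ * c.2) / bil (AA L) P₀ ((g i * κ i) *ᵥ c.1)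
  let good : Fin M → (Fin 3 → L) × L → Prop := fun i c =>
    c.2 ≠ 0 ∧ Cov ((g i * κ i)ᵀ * B * (g i * κ i)) c.1 c.2 ∧ (∀ j, c.1 j ∈ O) ∧
      (∀ j, (c.1 j - p i j) / π ∈ O) ∧ (c.2 - w i) / π ∈ O ∧
      bil (AA L) P₀ ((g i * κ i) *ᵥ c.1) ≠ 0
  let R : Fin M → (Fin 3 → L) × L → Fin M → (Fin 3 → L) × L → Prop := fun i c j d =>
    bil (AA L) ((g i * κ i) *ᵥ c.1) ((g j * κ j) *ᵥ d.1) ≠ 0 ∧ X i c ≠ X j d
  have hRsym : ∀ i c j d, R i c j d → R j d i c := by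
    rintro i c j d ⟨h3, h4⟩
    exact ⟨by rw [bil_symm _ AA_symm]; exact h3, Ne.symm h4⟩
  have hstep : ∀ (T : Finset (Fin M)) (f : Fin M → (Fin 3 → L) × L) (i : Fin M),
      (∀ j ∈ T, good j (f j)) → i ∉ T → ∃ c, good i c ∧ ∀ j ∈ T, R i c j (f j) := by
    intro T f i hT _
    let l : Fin M → Fin 3 → L := fun j => (B - X j (f j) • AA L) *ᵥ P₀
    have hfin : ({s : L | bil (AA L) P₀ ((g i * κ i) *ᵥ zz 1 s) = 0} ∪
        ⋃ j ∈ T, ({s : L | bil (AA L) ((g j * κ j) *ᵥ (f j).1) ((g i * κ i) *ᵥ zz 1 s) = 0} ∪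
          {s : L | (l j ⬝ᵥ ((g i * κ i) *ᵥ zz 1 s)) ^ 2 +
            v₀ ^ 2 * bil B ((g i * κ i) *ᵥ zz 1 s) ((g i * κ i) *ᵥ zz 1 s) = 0})).Finite := by
      refine Set.Finite.union (finA hISV h2 (hgA i) (hgd i) hCP₀.1 hCP₀.2.1) ?_
      refine Set.Finite.biUnion (Finset.finite_toSet T) ?_
      intro j hj
      have hcj := hglob j _ _ (hT j hj).2.1
      exact Set.Finite.union (finA hISV h2 (hgA i) (hgd i) hcj.1 hcj.2.1)
        (finQ hCON hDBL h2 hB hdB (hgA i) (hgd i) (l j) hv₀)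
    obtain ⟨s, t, v, hs, ht, hv, hcov, hint, hcg, hcgw⟩ := hHSM L O π h
      ((g i * κ i)ᵀ * B * (g i * κ i)) (p i) (w i) (hsym i) (hgB i) (hsm i) _ hfin
    have hs1 : bil (AA L) P₀ ((g i * κ i) *ᵥ zz 1 s) ≠ 0 := fun hc => hs (Or.inl hc)
    have hs2 : ∀ j ∈ T, bil (AA L) ((g j * κ j) *ᵥ (f j).1) ((g i * κ i) *ᵥ zz 1 s) ≠ 0 := by
      intro j hj hc
      exact hs (Or.inr (Set.mem_biUnion hj (Or.inl hc)))
    have hs3 : ∀ j ∈ T, (l j ⬝ᵥ ((g i * κ i) *ᵥ zz 1 s)) ^ 2 +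
        v₀ ^ 2 * bil B ((g i * κ i) *ᵥ zz 1 s) ((g i * κ i) *ᵥ zz 1 s) ≠ 0 := by
      intro j hj hc
      exact hs (Or.inr (Set.mem_biUnion hj (Or.inr hc)))
    have hmv : (g i * κ i) *ᵥ (t • zz 1 s) = t • ((g i * κ i) *ᵥ zz 1 s) := Matrix.mulVec_smul _ _ _
    have hA0 : bil (AA L) P₀ ((g i * κ i) *ᵥ (t • zz 1 s)) ≠ 0 := by
      rw [hmv, bil_smul_right]; exact mul_ne_zero ht hs1
    refine ⟨(t • zz 1 s, v), ⟨hv, hcov, hint, hcg, hcgw, hA0⟩, ?_⟩
    intro j hj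
    refine ⟨?_, ?_⟩
    · show bil (AA L) ((g i * κ i) *ᵥ (t • zz 1 s)) ((g j * κ j) *ᵥ (f j).1) ≠ 0
      rw [bil_symm _ AA_symm, hmv, bil_smul_right]
      exact mul_ne_zero ht (hs2 j hj)
    · intro hX
      apply hs3 j hj
      have hX' : (bil B P₀ ((g i * κ i) *ᵥ (t • zz 1 s)) - v₀ * v) /
          bil (AA L) P₀ ((g i * κ i) *ᵥ (t • zz 1 s)) = X j (f j) := hX
      rw [div_eq_iff hA0] at hX'
      have hl : l j ⬝ᵥ ((g i * κ i) *ᵥ (t • zz 1 s)) = v₀ * v := by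
        have e : l j ⬝ᵥ ((g i * κ i) *ᵥ (t • zz 1 s)) =
            bil B P₀ ((g i * κ i) *ᵥ (t • zz 1 s)) -
              X j (f j) * bil (AA L) P₀ ((g i * κ i) *ᵥ (t • zz 1 s)) := by
          rw [bil_symm B hB, bil_symm _ AA_symm]
          show ((B - X j (f j) • AA L) *ᵥ P₀) ⬝ᵥ ((g i * κ i) *ᵥ (t • zz 1 s)) = _
          rw [Matrix.sub_mulVec, Matrix.smul_mulVec, sub_dotProduct, smul_dotProduct,
            smul_eq_mul, dotProduct_comm, dotProduct_comm (AA L *ᵥ P₀)]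
          rfl
        rw [e]
        linear_combination hX'
      have hcv := (hglob i _ _ hcov).2.2
      rw [hmv] at hl hcv
      rw [dotProduct_smul, smul_eq_mul] at hl
      rw [bil_smul_right, bil_smul_left] at hcv
      have ht2 : t ^ 2 ≠ 0 := pow_ne_zero 2 ht
      apply mul_left_cancel₀ ht2
      linear_combination (t * (l j ⬝ᵥ ((g i * κ i) *ᵥ zz 1 s)) + v₀ * v) * hl + v₀ ^ 2 * hcv
  obtain ⟨f, hf1, hf2⟩ := exists_choice good R hRsym hstep (Finset.univ.erase i₀)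
  have hf1' : ∀ i, i ≠ i₀ → good i (f i) := fun i hi => hf1 i (by simp [hi])
  have hf2' : ∀ i j, i ≠ i₀ → j ≠ i₀ → i ≠ j → R i (f i) j (f j) := fun i j hi hj hij =>
    hf2 i (by simp [hi]) j (by simp [hj]) hij
  -- the points of the curve
  have hy : ∀ i, i ≠ i₀ → ∃ y : L, Dif B P₀ v₀ ((g i * κ i) *ᵥ (f i).1) (f i).2 (X i (f i)) y ∧
      OnC (ia B) (ib B) (ic B) (X i (f i)) y := by
    intro i hi
    obtain ⟨h3, h4, h5, h6, h7, h8⟩ := hf1' i hi
    obtain ⟨x, y, hD, hO⟩ := hDIX L h2 B P₀ ((g i * κ i) *ᵥ (f i).1) v₀ (f i).2 hB hCP₀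
      (hglob i _ _ h4) h8
    have hx : X i (f i) = x := by
      show (bil B P₀ ((g i * κ i) *ᵥ (f i).1) - v₀ * (f i).2) /
        bil (AA L) P₀ ((g i * κ i) *ᵥ (f i).1) = x
      rw [div_eq_iff h8]; exact hD.2.1.symm
    rw [hx]
    exact ⟨y, hD, hO⟩
  choose! y hyD hyO using hy
  have hxO : ∀ i, i ≠ i₀ → X i (f i) ∈ O := by
    intro i hi
    obtain ⟨h3, h4, h5, h6, h7, h8⟩ := hf1' i hi
    exact hcontra i₀ i (Ne.symm hi) q₀ (f i).1 v₀ (f i).2 _ hcov₀ hint₀ hcg₀ hcgw₀ h4 h3 h5 h6 h7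
      h8 (hyD i hi).2.1
  have hyOO : ∀ i, i ≠ i₀ → y i ∈ O := by
    intro i hi
    have h3 : y i ^ 2 ∈ O := by
      have := hyO i hi
      unfold OnC at this
      rw [this, ha, hb, hc]
      have hx := hxO i hi
      exact O.add_mem _ _ (O.add_mem _ _ (O.add_mem _ _ (pow_mem hx 3)
        (O.mul_mem _ _ a.2 (pow_mem hx 2))) (O.mul_mem _ _ b.2 hx)) c.2
    rcases O.mem_or_inv_mem (y i) with h4 | h4
    · exact h4
    · by_cases h0 : y i = 0
      · rw [h0]; exact O.zero_mem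
      · have := O.mul_mem _ _ h3 h4
        rwa [pow_two, mul_assoc, mul_inv_cancel₀ h0, mul_one] at this
  have hslope : ∀ i j, i ≠ i₀ → j ≠ i₀ → i ≠ j →
      (y i + y j) / (X i (f i) - X j (f j)) ∈ O := by
    intro i j hi hj hij
    obtain ⟨hR1, hR2⟩ := hf2' i j hi hj hij
    obtain ⟨h3, h4, h5, h6, h7, h8⟩ := hf1' i hi
    obtain ⟨h3', h4', h5', h6', h7', h8'⟩ := hf1' j hj
    obtain ⟨x, y', hD, _⟩ := hDIX L h2 B ((g i * κ i) *ᵥ (f i).1) ((g j * κ j) *ᵥ (f j).1)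
      (f i).2 (f j).2 hB (hglob i _ _ h4) (hglob j _ _ h4') hR1
    have hsl := (hSLP L h2 B P₀ ((g i * κ i) *ᵥ (f i).1) ((g j * κ j) *ᵥ (f j).1) v₀ (f i).2
      (f j).2 (X i (f i)) (y i) (X j (f j)) (y j) hB hCP₀ (hglob i _ _ h4) (hglob j _ _ h4')
      (hyD i hi) (hyD j hj)).1 x y' hD
    have hxx : x ∈ O := hcontra i j hij (f i).1 (f j).1 (f i).2 (f j).2 x h4 h5 h6 h7 h4' h3' h5'
      h6' h7' hR1 hD.2.1
    have hsub : X i (f i) - X j (f j) ≠ 0 := sub_ne_zero.2 hR2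
    have hsq : ((y i + y j) / (X i (f i) - X j (f j))) ^ 2 ∈ O := by
      have e : ((y i + y j) / (X i (f i) - X j (f j))) ^ 2 =
          ia B + X i (f i) + X j (f j) + x := by
        rw [div_pow, hsl, mul_div_cancel_left₀ _ (pow_ne_zero 2 hsub)]
      rw [e, ha]
      exact O.add_mem _ _ (O.add_mem _ _ (O.add_mem _ _ a.2 (hxO i hi)) (hxO j hj)) hxx
    rcases O.mem_or_inv_mem ((y i + y j) / (X i (f i) - X j (f j))) with h9 | h9
    · exact h9
    · by_cases h0 : (y i + y j) / (X i (f i) - X j (f j)) = 0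
      · rw [h0]; exact O.zero_mem
      · have := O.mul_mem _ _ hsq h9
        rwa [pow_two, mul_assoc, mul_inv_cancel₀ h0, mul_one] at this
  -- the bound
  have hinj : Set.InjOn (fun i => (X i (f i), y i)) ((Finset.univ.erase i₀ : Finset (Fin M)) : Set (Fin M)) := by
    intro i hi j hj hij
    by_contra hne
    have hi' : i ≠ i₀ := by simpa using hi
    have hj' : j ≠ i₀ := by simpa using hj
    exact (hf2' i j hi' hj' hne).2 (Prod.ext_iff.1 hij).1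
  have hcard : ((Finset.univ.erase i₀).image (fun i => (X i (f i), y i))).card = M - 1 := by
    rw [Finset.card_image_of_injOn hinj, Finset.card_erase_of_mem (Finset.mem_univ _),
      Finset.card_univ, Fintype.card_fin]
  have hfinal := hEBU L O π h N a b c hdisc ((Finset.univ.erase i₀).image (fun i => (X i (f i), y i)))
    (by
      intro q hq
      obtain ⟨i, hi, rfl⟩ := Finset.mem_image.1 hq
      have hi' : i ≠ i₀ := (Finset.mem_erase.1 hi).1
      refine ⟨hxO i hi', hyOO i hi', ?_⟩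
      have := hyO i hi'
      rwa [ha, hb, hc] at this)
    (by
      intro q hq q' hq' hne
      obtain ⟨i, hi, rfl⟩ := Finset.mem_image.1 hq
      obtain ⟨j, hj, rfl⟩ := Finset.mem_image.1 hq'
      have hi' : i ≠ i₀ := (Finset.mem_erase.1 hi).1
      have hj' : j ≠ i₀ := (Finset.mem_erase.1 hj).1
      have hij : i ≠ j := by rintro rfl; exact hne rfl
      exact ⟨(hf2' i j hi' hj' hij).2, hslope i j hi' hj' hij⟩)
  rw [hcard] at hfinal
  calc M * kap O ^ (N - 1) = (M - 1) * kap O ^ (N - 1) + kap O ^ (N - 1) := by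
        obtain ⟨m, rfl⟩ := Nat.exists_eq_succ_of_ne_zero (Nat.pos_iff_ne_zero.1 hM)
        simp only [Nat.succ_eq_add_one, Nat.add_sub_cancel]
        ring
    _ ≤ _ := Nat.add_le_add_right hfinal _

end Pool.AVS

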